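import Pool.Agent.Run7.h677.PS.Stm

/-!
# Project PS, piece CENTER: the centerpoint theorem
-/

set_option autoImplicit false

namespace Pool.Agent.Run7.h722.PS

open Finset
open Pool.Agent.Run7.h677.PS

theorem t_CENTER : S_CENTER := by
  classical
  intro d κ _ _ x
  set N : ℕ := Fintype.card κ with hN
  have hN0 : 0 < N := Fintype.card_pos
  set s : Finset (Finset κ) := univ.filter (fun S => d * N < (d + 1) * S.card) with hs
  have hH : (⋂ S ∈ s, convexHull ℝ (x '' ((S : Finset κ) : Set κ))).Nonempty := by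
    refine Convex.helly_theorem' (𝕜 := ℝ) (fun S _ => convex_convexHull ℝ _) ?_
    intro I hI hcard
    have hfr : Module.finrank ℝ (E d) = d := by simp
    rw [hfr] at hcard
    rcases I.eq_empty_or_nonempty with rfl | hIne
    · simp
    -- a common element
    have h1 : ∑ S ∈ I, (d + 1) * (Sᶜ : Finset κ).card < ∑ S ∈ I, N := by
      refine Finset.sum_lt_sum_of_nonempty hIne fun S hS => ?_
      have h2 : d * N < (d + 1) * S.card := (mem_filter.1 (hI hS)).2
      have h3 : S.card + (Sᶜ : Finset κ).card = N := Finset.card_add_card_compl S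
      have h4 : (d + 1) * N = (d + 1) * S.card + (d + 1) * (Sᶜ : Finset κ).card := by
        rw [← mul_add, h3]
      have h5 : (d + 1) * N = d * N + N := by ring
      omega
    rw [← Finset.mul_sum, Finset.sum_const, smul_eq_mul] at h1
    have h2 : (d + 1) * ∑ S ∈ I, (Sᶜ : Finset κ).card < (d + 1) * N :=
      h1.trans_le (Nat.mul_le_mul_right N hcard)
    have h3 : ∑ S ∈ I, (Sᶜ : Finset κ).card < N := lt_of_mul_lt_mul_left h2 (Nat.zero_le _)
    have h4 : (I.biUnion (fun S => (Sᶜ : Finset κ))).card < N :=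
      (Finset.card_biUnion_le).trans_lt h3
    obtain ⟨y, hy⟩ : ∃ y : κ, y ∉ I.biUnion (fun S => (Sᶜ : Finset κ)) := by
      by_contra hcon
      push Not at hcon
      have h5 : I.biUnion (fun S => (Sᶜ : Finset κ)) = univ := by
        ext y; simp only [mem_univ, iff_true]; exact hcon y
      rw [h5, Finset.card_univ] at h4
      exact lt_irrefl _ h4
    refine ⟨x y, ?_⟩
    rw [Set.mem_iInter₂]
    intro S hS
    have h6 : y ∈ S := by
      by_contra h7
      exact hy (mem_biUnion.2 ⟨S, hS, mem_compl.2 h7⟩)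
    exact subset_convexHull ℝ _ (Set.mem_image_of_mem x (Finset.mem_coe.2 h6))
  obtain ⟨z, hz⟩ := hH
  rw [Set.mem_iInter₂] at hz
  refine ⟨z, fun a => ?_⟩
  set S : Finset κ := univ.filter (fun y => inner ℝ a (x y) < inner ℝ a z) with hS
  have h1 : (d + 1) * S.card ≤ d * N := by
    by_contra hcon
    push Not at hcon
    have h2 := hz S (mem_filter.2 ⟨mem_univ _, hcon⟩)
    have h3 : Convex ℝ {w : E d | inner ℝ a w < inner ℝ a z} := by
      have := convex_halfSpace_lt (𝕜 := ℝ) (f := fun w : E d => inner ℝ a w)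
        (IsLinearMap.mk (fun u v => inner_add_right a u v) (fun c u => by
          rw [inner_smul_right, smul_eq_mul])) (inner ℝ a z)
      exact this
    have h4 : convexHull ℝ (x '' (S : Set κ)) ⊆ {w : E d | inner ℝ a w < inner ℝ a z} := by
      refine convexHull_min ?_ h3
      rintro _ ⟨y, hy, rfl⟩
      exact (mem_filter.1 (Finset.mem_coe.1 hy)).2
    have h5 : inner ℝ a z < inner ℝ a z := h4 h2
    exact lt_irrefl _ h5
  have h2 : {y : κ | inner ℝ a z ≤ inner ℝ a (x y)} = ((Sᶜ : Finset κ) : Set κ) := by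
    ext y
    rw [Finset.mem_coe, mem_compl, hS, mem_filter]
    simp only [Set.mem_ofPred_eq, mem_univ, true_and, not_lt]
  rw [h2, Set.ncard_coe_finset]
  have h3 : S.card + (Sᶜ : Finset κ).card = N := Finset.card_add_card_compl S
  have h4 : (d + 1) * N = (d + 1) * S.card + (d + 1) * (Sᶜ : Finset κ).card := by
    rw [← mul_add, h3]
  have h5 : (d + 1) * N = d * N + N := by ring
  omega

end Pool.Agent.Run7.h722.PS
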