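import Pool.Agent.Run7.h677.PS.Stm

/-!
# Project PS, piece LIM: the limit of the perturbations
-/

set_option autoImplicit false

namespace Pool.Agent.Run7.h722.PS

open Finset
open Pool.Agent.Run7.h677.PS

theorem hull_isCompact {d n : ℕ} (X : Fin (d + 1) → Fin n → E d) (A : Finset (Fin (d + 1)))
    (f : Tup d n) : IsCompact (hullX X A f) := by
  unfold hullX
  exact ((A : Set (Fin (d + 1))).toFinite.image _).isCompact_convexHull (𝕜 := ℝ)

/-- a point of the hull of the perturbed points is near the hull -/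
theorem hull_near {d n : ℕ} (X X' : Fin (d + 1) → Fin n → E d) (f : Tup d n) (ε : ℝ)
    (hX : ∀ i j, dist (X' i j) (X i j) < ε) {p : E d} (hp : p ∈ hullX X' univ f) :
    ∃ q ∈ hullX X univ f, dist p q ≤ ε := by
  unfold hullX at hp ⊢
  rw [Finset.coe_univ, Set.image_univ] at hp ⊢
  rw [convexHull_range_eq_exists_affineCombination] at hp ⊢
  obtain ⟨s, w, hw0, hw1, rfl⟩ := hp
  refine ⟨s.affineCombination ℝ (fun i => X i (f i)) w, ⟨s, w, hw0, hw1, rfl⟩, ?_⟩
  rw [Finset.affineCombination_eq_linear_combination _ _ _ hw1,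
    Finset.affineCombination_eq_linear_combination _ _ _ hw1, dist_eq_norm,
    ← Finset.sum_sub_distrib]
  refine (norm_sum_le _ _).trans ?_
  calc ∑ i ∈ s, ‖w i • X' i (f i) - w i • X i (f i)‖ ≤ ∑ i ∈ s, w i * ε := by
        refine Finset.sum_le_sum fun i hi => ?_
        rw [← smul_sub, norm_smul, Real.norm_eq_abs, abs_of_nonneg (hw0 i hi), ← dist_eq_norm]
        exact mul_le_mul_of_nonneg_left (hX i (f i)).le (hw0 i hi)
    _ = ε := by rw [← Finset.sum_mul, hw1, one_mul]

theorem t_LIM : S_LIM := by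
  classical
  intro d n X P h
  choose X'' p Z hX hP hp using fun m : ℕ =>
    h (1 / ((m : ℝ) + 1)) (by positivity)
  -- one value of Z occurs infinitely often
  obtain ⟨Z₀, hZ₀⟩ := Finite.exists_infinite_fiber Z
  have hinf : {m : ℕ | Z m = Z₀}.Infinite := by
    have h1 : (Z ⁻¹' {Z₀}).Infinite := Set.infinite_coe_iff.1 hZ₀
    exact h1
  have hPZ : P Z₀ := by
    obtain ⟨m, hm⟩ := hinf.nonempty
    have : Z m = Z₀ := hm
    rw [← this]
    exact hP m
  by_cases hne : ∃ f₀ : Tup d n, ∀ i, f₀ i ∈ Z₀ i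
  · obtain ⟨f₀, hf₀⟩ := hne
    -- the subsequence
    set φ : ℕ → ℕ := Nat.nth (fun m => Z m = Z₀) with hφ
    have hφm : ∀ k, Z (φ k) = Z₀ := fun k => Nat.nth_mem_of_infinite hinf k
    have hφs : StrictMono φ := Nat.nth_strictMono hinf
    have hnear : ∀ k, ∀ f : Tup d n, (∀ i, f i ∈ Z₀ i) →
        ∃ q ∈ hullX X univ f, dist (p (φ k)) q ≤ 1 / ((φ k : ℝ) + 1) := by
      intro k f hf
      exact hull_near X (X'' (φ k)) f _ (hX (φ k)) (hp (φ k) f (by rw [hφm k]; exact hf))
    have hlim : Filter.Tendsto (fun k => 1 / ((φ k : ℝ) + 1)) Filter.atTop (nhds 0) :=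
      tendsto_one_div_add_atTop_nhds_zero_nat.comp hφs.tendsto_atTop
    choose q hqm hqd using fun k => hnear k f₀ hf₀
    obtain ⟨z, hz, ψ, hψ, hψl⟩ := (hull_isCompact X univ f₀).tendsto_subseq hqm
    refine ⟨z, Z₀, hPZ, fun f hf => ?_⟩
    -- the points p converge to z too
    have hpz : Filter.Tendsto (fun k => p (φ (ψ k))) Filter.atTop (nhds z) := by
      rw [tendsto_iff_dist_tendsto_zero] at hψl ⊢
      refine squeeze_zero (fun k => dist_nonneg) (fun k => dist_triangle _ (q (ψ k)) _) ?_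
      have h1 := (hlim.comp hψ.tendsto_atTop)
      have h2 : Filter.Tendsto (fun k => dist (p (φ (ψ k))) (q (ψ k))) Filter.atTop (nhds 0) :=
        squeeze_zero (fun k => dist_nonneg) (fun k => hqd (ψ k)) h1
      have h3 := h2.add hψl
      rw [add_zero] at h3
      exact h3
    choose q' hqm' hqd' using fun k => hnear k f hf
    have hq'z : Filter.Tendsto (fun k => q' (ψ k)) Filter.atTop (nhds z) := by
      rw [tendsto_iff_dist_tendsto_zero] at hpz ⊢
      refine squeeze_zero (fun k => dist_nonneg)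
        (fun k => dist_triangle (q' (ψ k)) (p (φ (ψ k))) z) ?_
      have h1 := (hlim.comp hψ.tendsto_atTop)
      have h2 : Filter.Tendsto (fun k => dist (q' (ψ k)) (p (φ (ψ k)))) Filter.atTop (nhds 0) :=
        squeeze_zero (fun k => dist_nonneg) (fun k => by
          rw [dist_comm]; exact hqd' (ψ k)) h1
      have h3 := h2.add hpz
      rw [add_zero] at h3
      exact h3
    exact (hull_isCompact X univ f).isClosed.mem_of_tendsto hq'z
      (Filter.Eventually.of_forall fun k => hqm' (ψ k))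
  · refine ⟨0, Z₀, hPZ, fun f hf => ?_⟩
    exact absurd ⟨f, hf⟩ hne

end Pool.Agent.Run7.h722.PS
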